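import Pool.Agent.P8H64.GP.MainB
import Pool.Agent.P8H41.GP.Mom
import Pool.Agent.P8H61.GP.Law
import Pool.Agent.P8H1.GP.Kas
import Pool.Agent.P8H93.GP.Small
import Pool.Agent.P8H53.GPI.Big
import Pool.Agent.P8H57.GP.Repb
import Pool.Agent.P8H7.GP.Tiltb
import Pool.Agent.P8H88.GP.Intb
import Pool.Agent.P8H94.GP.Unib

/-!
# The Gaussian product inequality holds if there is a part of low rank

For a centred Gaussian vector `Z` in `ℝ ^ d` with covariance matrix `Σ` and real exponents `ν_i ≥ 0` the Gaussian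
product inequality `E ∏ |Z_i| ^ (2 ν_i) ≥ ∏ E |Z_i| ^ (2 ν_i)` is proved whenever `∑ ν_i ≥ C · rank Σ · max ν_i`, with
an absolute constant `C`. For equal exponents `ν` (any real `ν ≥ 0`) this is the condition `d ≥ C · rank Σ`; there is no
condition on the signs of the correlations. More generally (and this contains nondegenerate covariance matrices) it is
enough that `Z = Z' + Z''` with independent Gaussian vectors `Z'`, `Z''` such that `Var Z'_i ≥ c · Var Z_i` for all `i`,
`0 < c ≤ 1`, and `∑ ν_i ≥ C · c⁻² · rank Z' · max ν_i`.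

Proof: `Z = U W` with `W` standard in `ℝ ^ (r + q)`, `r = rank Z'`; the rows of `U` may be assumed to be unit vectors.
After the substitution `W = (a V', V'')` the left side is
`a ^ r · E [∏ |U_i (a V', V'')| ^ (2 ν_i) · exp (- (a² - 1) |V'|² / 2)]`, and Jensen's inequality for the exponential
function gives the lower bound `exp (r log a + s log (1 + c (a² - 1)) + 2 s m - (a² - 1) r / 2)`, `m = E log |g|`,
`s = ∑ ν_i`. The right side is bounded by means of `E |g| ^ (2 ν) ≤ (E |g| ^ (2 τ)) ^ (ν / τ)`, `τ = max ν_i`, and of the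
bound `E |g| ^ (2 τ) ≤ exp (τ (2 m + log (1 + A τ)))` for all `τ > 0`.
(For the maximum of a product of linear forms on the sphere, i.e. for the linear polarization constants, Jensen's
inequality is a standard tool if the number of the vectors is large against the dimension.)

(Packages of the proof are due to helper41 (MOM), helper24 (SQ), helper26 (BDD, UNI), helper61 (LAW, LOG), helper1 (KAS),
helper73 (TILT), helper94 (REP, UNIB), helper93 (SMALL), helper53 (BIG), helper65 (FIN), helper7 (TILTB), helper57 (REPB)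
and helper88 (INTB).)
-/

set_option autoImplicit false

namespace Pool.Agent.Results.MP_130bb2_pr.LowRank

open MeasureTheory ProbabilityTheory

/-- **Result.** There is an absolute constant `C > 0` such that for every `d` and every centred Gaussian law `μ` on
`ℝ ^ d` with covariance matrix `Σ = (∫ x_i x_j dμ)`: let `S` be a matrix such that `S` and `Σ - S` are positive
semidefinite and `S_ii ≥ c Σ_ii` for all `i`, `0 < c ≤ 1`; then for all real exponents `0 ≤ ν_i ≤ τ` with
`c ² · ∑ ν_i ≥ C · τ · rank S` the Gaussian product inequality `∏ E |x_i| ^ (2 ν_i) ≤ E ∏ |x_i| ^ (2 ν_i)` holds.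
(For `S = Σ`, `c = 1`: it holds if `∑ ν_i ≥ C · τ · rank Σ`.) -/
theorem result : ∃ C : ℝ, 0 < C ∧ ∀ (d : ℕ) (μ : Measure (Fin d → ℝ)), IsGaussian μ → ∫ x, x ∂μ = 0 →
    ∀ (S : Matrix (Fin d) (Fin d) ℝ) (c : ℝ), 0 < c → c ≤ 1 → S.PosSemidef →
      ((Matrix.of fun i j : Fin d => ∫ x, x i * x j ∂μ) - S).PosSemidef →
      (∀ i, c * ∫ x, x i * x i ∂μ ≤ S i i) →
      ∀ (ν : Fin d → ℝ) (τ : ℝ), (∀ i, 0 ≤ ν i) → (∀ i, ν i ≤ τ) →
        C * τ * S.rank ≤ c ^ 2 * ∑ i, ν i →
          ∏ i, ∫ x, |x i| ^ (2 * ν i) ∂μ ≤ ∫ x, ∏ i, |x i| ^ (2 * ν i) ∂μ :=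
  Pool.Agent.P8H64.GP.finalB Pool.Agent.P8H57.GP.repb Pool.Agent.P8H7.GP.tiltb Pool.Agent.P8H61.GP.law
    Pool.Agent.P8H61.GP.log Pool.Agent.P8H88.GP.intb Pool.Agent.P8H41.GP.mom
    (Pool.Agent.P8H1.GP.kas Pool.Agent.P8H93.GP.small Pool.Agent.P8H53.GPI.big) Pool.Agent.P8H94.GP.unib

end Pool.Agent.Results.MP_130bb2_pr.LowRank
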